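import Pool.Agent.X254.Kos3

/-!
# MP_15f3fd_al, Q1: the Fitting ideal of the Koszul module of a graph (TRUE)

For every simple graph `Γ` on `n ≥ 2` vertices with at least `n - 2` non-edges,
`Fitt W_Γ = I_{T(Γ)} · 𝔪 ^ (|Ē| - n + 2)`, over every field of characteristic `0`.

Proof: every maximal minor is an integer times a monomial.  By Cauchy-Binet, a weighted form of
Kalai's identity for the complete 2-complex, Sylvester's determinant identity and the weighted
matrix tree theorem, the sum of the squares of these integers times the monomials equals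
`(x_1 + ... + x_n) ^ (|Ē| - n + 2) * ∑_T m_T`; so both ideals are spanned by the same monomials.
-/

open MvPolynomial
open scoped Classical

namespace Pool.Agent.Results.MP_15f3fd_al.FittingIdeal

/-- The non-edges `{i, j}` of `Γ`, as pairs `(i, j)` with `i < j`. -/
abbrev NonEdge {n : ℕ} (Γ : SimpleGraph (Fin n)) : Type :=
  {p : Fin n × Fin n // p.1 < p.2 ∧ ¬ Γ.Adj p.1 p.2}

/-- The triples `(a, b, c)` with `a < b < c`; they index the basis `e_a ∧ e_b ∧ e_c` of `⋀³ V`. -/
abbrev Triple (n : ℕ) : Type :=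
  {t : Fin n × Fin n × Fin n // t.1 < t.2.1 ∧ t.2.1 < t.2.2}

/-- The presentation matrix of `W_Γ`.  The entry in the row of the non-edge `(i, j)` and the column
of `(a, b, c)` is the coefficient of `e_i ∧ e_j` in
`δ₃(e_a ∧ e_b ∧ e_c) = e_a ∧ e_b ⊗ x_c - e_a ∧ e_c ⊗ x_b + e_b ∧ e_c ⊗ x_a`. -/
noncomputable def presentation {n : ℕ} (Γ : SimpleGraph (Fin n)) (k : Type*) [Field k] :
    Matrix (NonEdge Γ) (Triple n) (MvPolynomial (Fin n) k) := Matrix.of fun p t =>
  if p.1 = (t.1.1, t.1.2.1) then X t.1.2.2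
  else if p.1 = (t.1.1, t.1.2.2) then - X t.1.2.1
  else if p.1 = (t.1.2.1, t.1.2.2) then X t.1.1
  else 0

/-- `Fitt W_Γ`: the ideal generated by the `|Ē| × |Ē|` minors of the presentation matrix (a minor is
given by a choice `I` of `|Ē|` different columns). -/
noncomputable def fitt {n : ℕ} (Γ : SimpleGraph (Fin n)) (k : Type*) [Field k] :
    Ideal (MvPolynomial (Fin n) k) := Ideal.span
  {f | ∃ I : NonEdge Γ → Triple n, Function.Injective I ∧
    f = ((presentation Γ k).submatrix id I).det}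

/-- `m_T = ∏_i x_i ^ (deg_T(i) - 1)`. -/
noncomputable def treeMonomial {n : ℕ} (k : Type*) [Field k] (T : SimpleGraph (Fin n)) :
    MvPolynomial (Fin n) k := ∏ i, X i ^ ((T.neighborSet i).ncard - 1)

/-- `I_{T(Γ)}`: the ideal generated by the `m_T` over all spanning trees `T` of `Γ`. -/
noncomputable def treeIdeal {n : ℕ} (Γ : SimpleGraph (Fin n)) (k : Type*) [Field k] :
    Ideal (MvPolynomial (Fin n) k) :=
  Ideal.span {f | ∃ T : SimpleGraph (Fin n), T ≤ Γ ∧ T.IsTree ∧ f = treeMonomial k T}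

/-- The ideal `𝔪 = (x_1, …, x_n)`. -/
noncomputable def maxIdeal (n : ℕ) (k : Type*) [Field k] : Ideal (MvPolynomial (Fin n) k) :=
  Ideal.span (Set.range X)

theorem result (k : Type*) [Field k] [CharZero k] (n : ℕ) (hn : 2 ≤ n) (Γ : SimpleGraph (Fin n))
    (hcard : n - 2 ≤ Nat.card (NonEdge Γ)) :
    fitt Γ k = treeIdeal Γ k * maxIdeal n k ^ (Nat.card (NonEdge Γ) - (n - 2)) := by
  rw [Nat.card_eq_fintype_card] at hcard ⊢
  have hc : Fintype.card (NonEdge Γ) = Fintype.card (Kos.NE Γ) := rfl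
  rw [hc] at hcard ⊢
  have h1 := Kos.main Γ k hn (by omega)
  have h2 : Fintype.card (Kos.NE Γ) - (n - 2) = Fintype.card (Kos.NE Γ) + 2 - n := by omega
  rw [h2]
  exact h1

end Pool.Agent.Results.MP_15f3fd_al.FittingIdeal
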